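import Pool.Agent.MP6c9f91.Adams
import Pool.Agent.MP6c9f91.Clause1
import Pool.Agent.MP6c9f91.Clause2
import Pool.Agent.MP6c9f91.GamME

/-!
# MP_6c9f91_an: a group measure equivalent to `F₂ × F₂` outside the two known classes

The group `Γ` is `N ⋊ N` with `N = D * D`, `D = ⨁ₙ ℤ/(4n+6)`.
-/

open MP6c9f91

namespace Pool.Agent.Results.MP_6c9f91_an.NegatedForm

universe u v w

theorem result :
    ∃ (Γ : Type) (_ : Group Γ), Countable Γ ∧ MeasureEquiv Γ F22 ∧
      (∀ (ι : Type u) [DecidableEq ι] (H : ι → Type v) [∀ i, Group (H i)]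
        (P : Subgroup (∀ i, H i)), (∀ i (h : H i), Pi.mulSingle i h ∈ P) →
        (∀ i, IsMEFree (H i)) → ¬ VirtIso Γ P) ∧
      (∀ (G : Type w) [Group G] [TopologicalSpace G] [IsTopologicalGroup G] [T2Space G]
        [LocallyCompactSpace G],
        ∀ Γ' Λ' : Subgroup G, LatticeIn Γ' → LatticeIn Λ' → VirtIso Γ Γ' → ¬ VirtIso F22 Λ') := by
  have : Countable Gam := countable_Gam
  refine ⟨Gam, inferInstance, inferInstance, Gam_me.measureEquiv, ?_, ?_⟩
  · intro ι _ H _ P hP hfree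
    exact clause1 (fun H _ _ h => adams H h) ι H P hP hfree
  · intro G _ _ _ _ _ Γ' Λ' hΓ' hΛ' h1 h2
    exact clause2_general Γ' Λ' hΓ'.isLattice hΛ'.isLattice h1 h2

end Pool.Agent.Results.MP_6c9f91_an.NegatedForm
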